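import Pool.Agent.R479.HK.Triples
import Pool.Agent.Y911.AA.Main

/-!
# The inequality `c < H (abc) ^ M` for almost all admissible triples, of all heights

`H (n) = γ (n) / (log γ (n)) ^ ω (n)`. For every `M > 1/3` and every `C > 0` all but
`O (X ^ (2/3 - ν))` of the `∼ κ X ^ (2/3)` admissible triples with `γ (abc) ≤ X` satisfy
`c < C H (abc) ^ M`; there is no restriction on the size of `c`. For `0 ≤ M ≤ 1/3` no triple
satisfies `c < H (abc) ^ M`.
-/

set_option autoImplicit false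

namespace Pool.Agent.Results.MP_14cf73_nt.AlmostAllByRadical

open Filter Topology

/-- `γ(n)`, the product of the primes dividing `n` -/
def radical (n : ℕ) : ℕ := ∏ p ∈ n.primeFactors, p

/-- `ω(n)`, the number of primes dividing `n` -/
def omega (n : ℕ) : ℕ := n.primeFactors.card

/-- `H(n) = γ(n) / (log γ(n)) ^ ω(n)` -/
noncomputable def H (n : ℕ) : ℝ := (radical n : ℝ) / Real.log (radical n : ℝ) ^ omega n

/-- the product `abc` for the triple `(a, b, a + b)` written `(a, b)` -/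
def prod3 (p : ℕ × ℕ) : ℕ := p.1 * p.2 * (p.1 + p.2)

/-- the admissible triples `(a, b, a + b)`, `a ≤ b`, written `(a, b)`, with `γ(abc) ≤ X`; there is
no condition on the size of `c = a + b` -/
def triples (X : ℝ) : Set (ℕ × ℕ) :=
  {p | 0 < p.1 ∧ p.1 ≤ p.2 ∧ Nat.Coprime p.1 p.2 ∧ (radical (prod3 p) : ℝ) ≤ X}

/-- those among them with `c ≥ C H(abc) ^ M` -/
def exceptions (C M X : ℝ) : Set (ℕ × ℕ) :=
  {p | p ∈ triples X ∧ C * H (prod3 p) ^ M ≤ ((p.1 + p.2 : ℕ) : ℝ)}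

theorem two_le_radical {X : ℝ} {p : ℕ × ℕ} (hp : p ∈ triples X) : 2 ≤ radical (prod3 p) := by
  obtain ⟨h1, h2, h3, -⟩ := hp
  have h4 : 1 < prod3 p := by
    unfold prod3
    have : 0 < p.2 := by omega
    nlinarith [Nat.mul_pos h1 this]
  obtain ⟨q, hq, hqd⟩ := Nat.exists_prime_and_dvd h4.ne'
  have hmem : q ∈ (prod3 p).primeFactors := Nat.mem_primeFactors.mpr ⟨hq, hqd, by omega⟩
  have h5 : q ∣ radical (prod3 p) := Finset.dvd_prod_of_mem _ hmem
  have h6 : 0 < radical (prod3 p) := Finset.prod_pos fun r hr => (Nat.prime_of_mem_primeFactors hr).pos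
  exact hq.two_le.trans (Nat.le_of_dvd h6 h5)

theorem log_pos' {X : ℝ} {p : ℕ × ℕ} (hp : p ∈ triples X) :
    0 < Real.log (radical (prod3 p) : ℝ) := by
  apply Real.log_pos
  have := two_le_radical hp
  have : (2 : ℝ) ≤ radical (prod3 p) := by exact_mod_cast this
  linarith

theorem H_pos {X : ℝ} {p : ℕ × ℕ} (hp : p ∈ triples X) : 0 < H (prod3 p) := by
  have h1 := log_pos' hp
  have h2 : (0 : ℝ) < radical (prod3 p) := by
    have := two_le_radical hp
    have : (2 : ℝ) ≤ radical (prod3 p) := by exact_mod_cast this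
    linarith
  unfold H
  positivity

/-- `H(abc) ≤ c ^ 3` -/
theorem H_le {X : ℝ} {p : ℕ × ℕ} (hp : p ∈ triples X) :
    H (prod3 p) ≤ ((p.1 + p.2 : ℕ) : ℝ) ^ 3 := by
  have h1 := log_pos' hp
  have h2 := two_le_radical hp
  have h3 : radical (prod3 p) < (p.1 + p.2) ^ 3 := Pool.Agent.Y911.AA.rad3_lt (X := X) hp
  have h3' : (radical (prod3 p) : ℝ) ≤ ((p.1 + p.2 : ℕ) : ℝ) ^ 3 := by exact_mod_cast h3.le
  rcases Nat.lt_or_ge (radical (prod3 p)) 3 with h | h
  · have h4 : radical (prod3 p) = 2 := by omega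
    have h5 : omega (prod3 p) ≤ 1 := by
      by_contra hcon
      rw [not_le] at hcon
      obtain ⟨q, hq, r, hr, hqr⟩ := Finset.one_lt_card.mp hcon
      have h6 : q * r ∣ radical (prod3 p) := by
        refine Nat.Coprime.mul_dvd_of_dvd_of_dvd ?_ (Finset.dvd_prod_of_mem _ hq)
          (Finset.dvd_prod_of_mem _ hr)
        exact (Nat.coprime_primes (Nat.prime_of_mem_primeFactors hq)
          (Nat.prime_of_mem_primeFactors hr)).mpr hqr
      rw [h4] at h6
      have h7 := Nat.le_of_dvd (by norm_num) h6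
      have h8 := (Nat.prime_of_mem_primeFactors hq).two_le
      have h9 := (Nat.prime_of_mem_primeFactors hr).two_le
      nlinarith
    have h10 : (8 : ℝ) ≤ ((p.1 + p.2 : ℕ) : ℝ) ^ 3 := by
      have h11 : 2 ≤ p.1 + p.2 := by
        obtain ⟨a1, a2, -⟩ := hp
        omega
      have h12 : (2 : ℝ) ≤ ((p.1 + p.2 : ℕ) : ℝ) := by exact_mod_cast h11
      calc (8 : ℝ) = 2 ^ 3 := by norm_num
        _ ≤ _ := by gcongr
    refine le_trans ?_ h10
    unfold H
    rw [h4]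
    have h13 := Real.log_two_gt_d9
    rw [div_le_iff₀ (by positivity)]
    push_cast
    interval_cases hω : omega (prod3 p)
    · norm_num
    · rw [pow_one]
      linarith
  · have h4 : 1 ≤ Real.log (radical (prod3 p) : ℝ) := by
      have h5 : Real.exp 1 ≤ (radical (prod3 p) : ℝ) := by
        have h6 : (3 : ℝ) ≤ radical (prod3 p) := by exact_mod_cast h
        have := Real.exp_one_lt_d9
        linarith
      have h7 := Real.log_le_log (Real.exp_pos 1) h5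
      rwa [Real.log_exp] at h7
    refine le_trans ?_ h3'
    unfold H
    exact div_le_self (by positivity) (one_le_pow₀ h4)

/-- the exceptions with `c < γ ^ M'`, `M' < M` -/
theorem few {C M M' : ℝ} (hC : 0 < C) (hM' : 0 < M') (hM : M' < M) : ∃ ν D : ℝ, 0 < ν ∧ 0 < D ∧
    ∀ X : ℝ, 1 ≤ X →
    (({p | p ∈ exceptions C M X ∧
      ((p.1 + p.2 : ℕ) : ℝ) < (radical (prod3 p) : ℝ) ^ M'}.ncard : ℕ) : ℝ) ≤
      D * X ^ (2 / 3 - ν) := by
  have hM0 : 0 < M := by linarith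
  set κ : ℝ := max 1 M' with hκ
  have hκ1 : 1 ≤ κ := le_max_left _ _
  have hκM : M' ≤ κ := le_max_right _ _
  have hq : 0 < 1 - M' / M := by
    rw [sub_pos, div_lt_one hM0]
    exact hM
  set δ : ℝ := (1 / 3) * (1 - M' / M) / κ with hδ
  have hδ0 : 0 < δ := by positivity
  obtain ⟨D, hD, h⟩ := Pool.Agent.R479.HK.count (A := 1) hδ0
  refine ⟨(1 / 3) * (1 - M' / M), D * 2 ^ δ * (C⁻¹ ^ (1 / M)) ^ ((2 : ℝ) / 3), by positivity,
    by positivity, fun X hX => ?_⟩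
  have hX0 : 0 < X := by linarith
  have hXκ : 1 ≤ X ^ κ := Real.one_le_rpow hX (by linarith)
  set N : ℕ := ⌈X ^ κ⌉₊ with hN
  have hN1 : 1 ≤ N := Nat.one_le_ceil_iff.mpr (by linarith)
  have hN0 : (0 : ℝ) < N := by exact_mod_cast hN1
  have hNX : X ^ κ ≤ N := Nat.le_ceil _
  have hXN : X ≤ N := by
    calc X = X ^ (1 : ℝ) := (Real.rpow_one X).symm
      _ ≤ X ^ κ := Real.rpow_le_rpow_of_exponent_le hX hκ1
      _ ≤ N := hNX
  have hN2 : (N : ℝ) ≤ 2 * X ^ κ := by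
    have := (Nat.ceil_lt_add_one (by positivity : 0 ≤ X ^ κ)).le
    linarith
  set z : ℝ := 1 + Real.log X with hz
  have hlX : 0 ≤ Real.log X := Real.log_nonneg hX
  have hz0 : 0 < z := by linarith
  have hzN : z ≤ 1 * (1 + Real.log N) := by
    have := Real.log_le_log hX0 hXN
    linarith
  set T : ℝ := C⁻¹ ^ (1 / M) * X ^ (M' / M) with hT
  have hT0 : 0 ≤ T := by positivity
  have hsub : {p | p ∈ exceptions C M X ∧
      ((p.1 + p.2 : ℕ) : ℝ) < (radical (prod3 p) : ℝ) ^ M'} ⊆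
      Pool.Agent.R479.HK.TS N z T := by
    rintro p ⟨⟨hp, hex⟩, hlt⟩
    have hH := H_pos hp
    have hlog := log_pos' hp
    have hr2 := two_le_radical hp
    obtain ⟨h1, h2, h3, h4⟩ := hp
    have hr0 : (0 : ℝ) < radical (prod3 p) := by
      have : (2 : ℝ) ≤ radical (prod3 p) := by exact_mod_cast hr2
      linarith
    have hcX : ((p.1 + p.2 : ℕ) : ℝ) ≤ X ^ M' :=
      hlt.le.trans (Real.rpow_le_rpow hr0.le h4 hM'.le)
    refine ⟨h1, by omega, h3, ?_, ?_⟩
    · have h5 : ((p.1 + p.2 : ℕ) : ℝ) ≤ N :=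
        hcX.trans ((Real.rpow_le_rpow_of_exponent_le hX hκM).trans hNX)
      exact_mod_cast h5
    · have h5 : H (prod3 p) ≤ T := by
        have h6 : H (prod3 p) ^ M ≤ C⁻¹ * X ^ M' := by
          rw [← div_eq_inv_mul, le_div_iff₀ hC]
          linarith
        calc H (prod3 p) = (H (prod3 p) ^ M) ^ (1 / M) := by
              rw [← Real.rpow_mul hH.le, mul_one_div_cancel hM0.ne', Real.rpow_one]
          _ ≤ (C⁻¹ * X ^ M') ^ (1 / M) := Real.rpow_le_rpow (by positivity) h6 (by positivity)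
          _ = T := by
              rw [Real.mul_rpow (by positivity) (by positivity), ← Real.rpow_mul hX0.le,
                mul_one_div]
      have h7 : (radical (prod3 p) : ℝ) ≤
          T * Real.log (radical (prod3 p) : ℝ) ^ omega (prod3 p) := by
        have h8 : H (prod3 p) = (radical (prod3 p) : ℝ) /
          Real.log (radical (prod3 p) : ℝ) ^ omega (prod3 p) := rfl
        rw [h8, div_le_iff₀ (by positivity)] at h5
        exact h5
      have h9 : Real.log (radical (prod3 p) : ℝ) ≤ z := by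
        have := Real.log_le_log hr0 h4
        linarith
      have h10 : Real.log (radical (prod3 p) : ℝ) ^ omega (prod3 p) ≤ z ^ omega (prod3 p) := by
        gcongr
      have h11 : (radical (prod3 p) : ℝ) ≤ T * z ^ omega (prod3 p) :=
        h7.trans (by gcongr)
      exact h11
  have hfin := Pool.Agent.R479.HK.TS_finite N z T
  have hcard : (({p | p ∈ exceptions C M X ∧
      ((p.1 + p.2 : ℕ) : ℝ) < (radical (prod3 p) : ℝ) ^ M'}.ncard : ℕ) : ℝ) ≤
      ((Pool.Agent.R479.HK.TS N z T).ncard : ℝ) := by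
    exact_mod_cast Set.ncard_le_ncard hsub hfin
  refine hcard.trans ((h N hN1 z hz0 hzN T hT0).trans ?_)
  have hNδ : (N : ℝ) ^ δ ≤ 2 ^ δ * X ^ (κ * δ) := by
    calc (N : ℝ) ^ δ ≤ (2 * X ^ κ) ^ δ := Real.rpow_le_rpow hN0.le hN2 hδ0.le
      _ = 2 ^ δ * X ^ (κ * δ) := by
          rw [Real.mul_rpow (by norm_num) (by positivity), ← Real.rpow_mul hX0.le]
  have hTe : T ^ ((2 : ℝ) / 3) = (C⁻¹ ^ (1 / M)) ^ ((2 : ℝ) / 3) * X ^ (M' / M * (2 / 3)) := by
    rw [hT, Real.mul_rpow (by positivity) (by positivity), ← Real.rpow_mul hX0.le]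
  have hκδ : κ * δ = (1 / 3) * (1 - M' / M) := by
    rw [hδ]
    field_simp
  calc D * (N : ℝ) ^ δ * T ^ ((2 : ℝ) / 3)
      ≤ D * (2 ^ δ * X ^ (κ * δ)) *
        ((C⁻¹ ^ (1 / M)) ^ ((2 : ℝ) / 3) * X ^ (M' / M * (2 / 3))) := by
        rw [hTe]
        gcongr
    _ = D * 2 ^ δ * (C⁻¹ ^ (1 / M)) ^ ((2 : ℝ) / 3) *
        (X ^ (κ * δ) * X ^ (M' / M * (2 / 3))) := by ring
    _ = D * 2 ^ δ * (C⁻¹ ^ (1 / M)) ^ ((2 : ℝ) / 3) * X ^ (2 / 3 - (1 / 3) * (1 - M' / M)) := by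
        rw [← Real.rpow_add hX0, hκδ]
        congr 2
        ring

/-- **The inequality `c < C H(abc) ^ M` holds for almost all admissible triples for all exponents
`M > 1/3`.** (1) The number of all admissible triples with `γ(abc) ≤ X`, of whatever height, is
finite and asymptotic to `κ X ^ (2/3)`, where `κ > 0`. (2) For all `C > 0` and `M > 1/3` at most
`D X ^ (2/3 - ν)` of them have `c ≥ C H(abc) ^ M`. (3) For `0 ≤ M ≤ 1/3` all of them have
`c ≥ H(abc) ^ M`. -/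
theorem result :
    (∀ X : ℝ, (triples X).Finite) ∧
    (∃ κ : ℝ, 0 < κ ∧
      Tendsto (fun X : ℝ => ((triples X).ncard : ℝ) / X ^ ((2 : ℝ) / 3)) atTop (𝓝 κ)) ∧
    (∀ C M : ℝ, 0 < C → 1 / 3 < M → ∃ ν D : ℝ, 0 < ν ∧ 0 < D ∧ ∀ X : ℝ, 1 ≤ X →
      ((exceptions C M X).ncard : ℝ) ≤ D * X ^ (2 / 3 - ν)) ∧
    (∀ M : ℝ, 0 ≤ M → M ≤ 1 / 3 → ∀ X : ℝ, exceptions 1 M X = triples X) := by
  obtain ⟨κ, hκ, h1, h2⟩ := Pool.Agent.Y911.AA.main
  refine ⟨Pool.Agent.Y911.AA.triples_finite', ⟨κ, hκ, h1⟩, ?_, ?_⟩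
  · intro C M hC hM
    obtain ⟨ν₁, D₁, hν₁, hD₁, h3⟩ := h2 ((1 / 3 + M) / 2) (by linarith)
    obtain ⟨ν₂, D₂, hν₂, hD₂, h4⟩ := few (C := C) (M := M) (M' := (1 / 3 + M) / 2) hC
      (by linarith) (by linarith)
    refine ⟨min ν₁ ν₂, D₁ + D₂, lt_min hν₁ hν₂, by positivity, fun X hX => ?_⟩
    have hfin := Pool.Agent.Y911.AA.triples_finite' X
    have hcover : exceptions C M X ⊆ Pool.Agent.Y911.AA.viol ((1 / 3 + M) / 2) X ∪
        {p | p ∈ exceptions C M X ∧
          ((p.1 + p.2 : ℕ) : ℝ) < (radical (prod3 p) : ℝ) ^ ((1 / 3 + M) / 2)} := by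
      intro p hp
      rcases lt_or_ge ((p.1 + p.2 : ℕ) : ℝ) ((radical (prod3 p) : ℝ) ^ ((1 / 3 + M) / 2)) with h | h
      · exact Or.inr ⟨hp, h⟩
      · exact Or.inl ⟨hp.1, h⟩
    have h5 : ((exceptions C M X).ncard : ℝ) ≤
        ((Pool.Agent.Y911.AA.viol ((1 / 3 + M) / 2) X).ncard : ℝ) +
        (({p | p ∈ exceptions C M X ∧
          ((p.1 + p.2 : ℕ) : ℝ) < (radical (prod3 p) : ℝ) ^ ((1 / 3 + M) / 2)}.ncard : ℕ) : ℝ) := by
      have h6 := Set.ncard_le_ncard hcover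
        ((hfin.subset fun p hp => hp.1).union (hfin.subset fun p hp => hp.1.1))
      exact_mod_cast h6.trans (Set.ncard_union_le _ _)
    have hle : ∀ ν' : ℝ, min ν₁ ν₂ ≤ ν' → X ^ (2 / 3 - ν') ≤ X ^ (2 / 3 - min ν₁ ν₂) :=
      fun ν' h => Real.rpow_le_rpow_of_exponent_le hX (by linarith)
    have h7 := hle ν₁ (min_le_left _ _)
    have h8 := hle ν₂ (min_le_right _ _)
    calc ((exceptions C M X).ncard : ℝ) ≤ D₁ * X ^ (2 / 3 - ν₁) + D₂ * X ^ (2 / 3 - ν₂) :=
          h5.trans (add_le_add (h3 X hX) (h4 X hX))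
      _ ≤ D₁ * X ^ (2 / 3 - min ν₁ ν₂) + D₂ * X ^ (2 / 3 - min ν₁ ν₂) := by gcongr
      _ = (D₁ + D₂) * X ^ (2 / 3 - min ν₁ ν₂) := by ring
  · intro M hM0 hM X
    ext p
    refine ⟨fun h => h.1, fun h => ⟨h, ?_⟩⟩
    rw [one_mul]
    have hH := H_pos h
    have hH3 := H_le h
    have hc1 : (1 : ℝ) ≤ ((p.1 + p.2 : ℕ) : ℝ) := by
      have h11 : 1 ≤ p.1 + p.2 := by
        obtain ⟨a1, a2, -⟩ := h
        omega
      exact_mod_cast h11
    rcases le_total (H (prod3 p)) 1 with h9 | h9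
    · exact (Real.rpow_le_one hH.le h9 hM0).trans hc1
    · calc H (prod3 p) ^ M ≤ H (prod3 p) ^ ((1 : ℝ) / 3) :=
            Real.rpow_le_rpow_of_exponent_le h9 hM
        _ ≤ (((p.1 + p.2 : ℕ) : ℝ) ^ 3) ^ ((1 : ℝ) / 3) :=
            Real.rpow_le_rpow hH.le hH3 (by norm_num)
        _ = ((p.1 + p.2 : ℕ) : ℝ) := by
            rw [← Real.rpow_natCast, ← Real.rpow_mul (Nat.cast_nonneg _)]
            norm_num

end Pool.Agent.Results.MP_14cf73_nt.AlmostAllByRadical
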