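import Pool.Agent.R479.HK.Triples

/-!
# The exceptions to `c < C H (abc) ^ M`, ordered by height

`H (n) = γ (n) / (log γ (n)) ^ ω (n)`. For all `C > 0`, `M > 0` and `δ > 0` at most
`K X ^ (2 / (3 M) + δ)` admissible triples with `c ≤ X` satisfy `c ≥ C H (abc) ^ M`.
-/

set_option autoImplicit false

namespace Pool.Agent.Results.MP_14cf73_nt.ExceptionsByHeight

/-- `γ(n)`, the product of the primes dividing `n` -/
def radical (n : ℕ) : ℕ := ∏ p ∈ n.primeFactors, p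

/-- `ω(n)`, the number of primes dividing `n` -/
def omega (n : ℕ) : ℕ := n.primeFactors.card

/-- `H(n) = γ(n) / (log γ(n)) ^ ω(n)` -/
noncomputable def H (n : ℕ) : ℝ := (radical n : ℝ) / Real.log (radical n : ℝ) ^ omega n

/-- the product `abc` for the triple `(a, b, a + b)` written `(a, b)` -/
def prod3 (p : ℕ × ℕ) : ℕ := p.1 * p.2 * (p.1 + p.2)

/-- the admissible triples `(a, b, c)`, `c = a + b`, written `(a, b)`, with `c ≤ X` and
`c ≥ C H(abc) ^ M` -/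
def exceptions (C M X : ℝ) : Set (ℕ × ℕ) :=
  {p | 0 < p.1 ∧ 0 < p.2 ∧ Nat.Coprime p.1 p.2 ∧ ((p.1 + p.2 : ℕ) : ℝ) ≤ X ∧
    C * H (prod3 p) ^ M ≤ ((p.1 + p.2 : ℕ) : ℝ)}

theorem radical_pos (n : ℕ) : 0 < radical n :=
  Finset.prod_pos fun _ hr => (Nat.prime_of_mem_primeFactors hr).pos

theorem log_nonneg' (n : ℕ) : 0 ≤ Real.log (radical n : ℝ) :=
  Real.log_nonneg (by exact_mod_cast radical_pos n)

/-- `γ(abc) ≤ c ^ 3` -/
theorem radical_le {a b : ℕ} (ha : 0 < a) (hb : 0 < b) :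
    radical (prod3 (a, b)) ≤ (a + b) ^ 3 := by
  have h0 : 0 < prod3 (a, b) := by
    unfold prod3
    positivity
  refine (Nat.le_of_dvd h0 (Nat.prod_primeFactors_dvd _)).trans ?_
  unfold prod3
  simp only
  calc a * b * (a + b) ≤ (a + b) * (a + b) * (a + b) := by gcongr <;> omega
    _ = (a + b) ^ 3 := by ring

theorem radical_two_le {a b : ℕ} (ha : 0 < a) (hb : 0 < b) : 2 ≤ radical (prod3 (a, b)) := by
  have h4 : 1 < prod3 (a, b) := by
    unfold prod3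
    simp only
    nlinarith [Nat.mul_pos ha hb]
  obtain ⟨q, hq, hqd⟩ := Nat.exists_prime_and_dvd h4.ne'
  have hmem : q ∈ (prod3 (a, b)).primeFactors := Nat.mem_primeFactors.mpr ⟨hq, hqd, by omega⟩
  exact hq.two_le.trans (Nat.le_of_dvd (radical_pos _) (Finset.dvd_prod_of_mem _ hmem))

theorem exceptions_sub {C M X : ℝ} (hC : 0 < C) (hM : 0 < M) (hX : 1 ≤ X) :
    exceptions C M X ⊆ Pool.Agent.R479.HK.TS ⌊X⌋₊ (1 + 3 * Real.log (⌊X⌋₊ : ℝ))
      (C⁻¹ ^ (1 / M) * X ^ (1 / M)) := by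
  rintro ⟨a, b⟩ ⟨ha, hb, hab, hc, hex⟩
  simp only at ha hb hab hc hex
  have hX0 : 0 < X := by linarith
  have hcN : a + b ≤ ⌊X⌋₊ := Nat.le_floor hc
  set N : ℕ := ⌊X⌋₊ with hN
  have hr2 := radical_two_le ha hb
  have hr2' : (2 : ℝ) ≤ radical (prod3 (a, b)) := by exact_mod_cast hr2
  have hr0 : (0 : ℝ) < radical (prod3 (a, b)) := by linarith
  have hlog : 0 < Real.log (radical (prod3 (a, b)) : ℝ) := Real.log_pos (by linarith)
  have hH : 0 < H (prod3 (a, b)) := by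
    unfold H
    positivity
  refine ⟨ha, hb, hab, hcN, ?_⟩
  set T : ℝ := C⁻¹ ^ (1 / M) * X ^ (1 / M) with hT
  have h5 : H (prod3 (a, b)) ≤ T := by
    have h6 : H (prod3 (a, b)) ^ M ≤ C⁻¹ * X := by
      rw [← div_eq_inv_mul, le_div_iff₀ hC]
      linarith
    calc H (prod3 (a, b)) = (H (prod3 (a, b)) ^ M) ^ (1 / M) := by
          rw [← Real.rpow_mul hH.le, mul_one_div_cancel hM.ne', Real.rpow_one]
      _ ≤ (C⁻¹ * X) ^ (1 / M) := Real.rpow_le_rpow (by positivity) h6 (by positivity)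
      _ = T := by
          rw [Real.mul_rpow (by positivity) (by positivity)]
  have h7 : (radical (prod3 (a, b)) : ℝ) ≤
      T * Real.log (radical (prod3 (a, b)) : ℝ) ^ omega (prod3 (a, b)) := by
    have h8 : H (prod3 (a, b)) = (radical (prod3 (a, b)) : ℝ) /
      Real.log (radical (prod3 (a, b)) : ℝ) ^ omega (prod3 (a, b)) := rfl
    rw [h8, div_le_iff₀ (by positivity)] at h5
    exact h5
  have h9 : Real.log (radical (prod3 (a, b)) : ℝ) ≤ 1 + 3 * Real.log (N : ℝ) := by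
    have h10 : radical (prod3 (a, b)) ≤ N ^ 3 :=
      (radical_le ha hb).trans (Nat.pow_le_pow_left hcN 3)
    have h11 : (radical (prod3 (a, b)) : ℝ) ≤ (N : ℝ) ^ 3 := by exact_mod_cast h10
    have h12 := Real.log_le_log hr0 h11
    rw [Real.log_pow] at h12
    push_cast at h12
    linarith
  have h10 : Real.log (radical (prod3 (a, b)) : ℝ) ^ omega (prod3 (a, b)) ≤
      (1 + 3 * Real.log (N : ℝ)) ^ omega (prod3 (a, b)) := by
    gcongr
  have h11 : (radical (prod3 (a, b)) : ℝ) ≤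
      T * (1 + 3 * Real.log (N : ℝ)) ^ omega (prod3 (a, b)) := h7.trans (by gcongr)
  exact h11

/-- **The number of exceptions.** For all `C > 0`, `M > 0` and `δ > 0` there is `K` such that for
every `X ≥ 1` at most `K X ^ (2 / (3 M) + δ)` admissible triples with `c ≤ X` satisfy
`c ≥ C H(abc) ^ M`. -/
theorem result (C M δ : ℝ) (hC : 0 < C) (hM : 0 < M) (hδ : 0 < δ) :
    ∃ K : ℝ, 0 < K ∧ ∀ X : ℝ, 1 ≤ X → (exceptions C M X).Finite ∧
      ((exceptions C M X).ncard : ℝ) ≤ K * X ^ (2 / (3 * M) + δ) := by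
  obtain ⟨D, hD, h⟩ := Pool.Agent.R479.HK.count (A := 3) hδ
  refine ⟨D * (C⁻¹ ^ (1 / M)) ^ ((2 : ℝ) / 3), by positivity, fun X hX => ?_⟩
  have hX0 : 0 < X := by linarith
  have hsub := exceptions_sub hC hM hX
  have hN1 : 1 ≤ ⌊X⌋₊ := Nat.one_le_floor_iff _ |>.mpr hX
  set N : ℕ := ⌊X⌋₊ with hN
  have hN1' : (1 : ℝ) ≤ N := by exact_mod_cast hN1
  have hN0 : (0 : ℝ) < N := by linarith
  have hNX : (N : ℝ) ≤ X := Nat.floor_le hX0.le
  have hlN : 0 ≤ Real.log (N : ℝ) := Real.log_nonneg hN1'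
  have hfin := Pool.Agent.R479.HK.TS_finite N (1 + 3 * Real.log (N : ℝ))
    (C⁻¹ ^ (1 / M) * X ^ (1 / M))
  refine ⟨hfin.subset hsub, ?_⟩
  have hcard : ((exceptions C M X).ncard : ℝ) ≤
      ((Pool.Agent.R479.HK.TS N (1 + 3 * Real.log (N : ℝ))
        (C⁻¹ ^ (1 / M) * X ^ (1 / M))).ncard : ℝ) := by
    exact_mod_cast Set.ncard_le_ncard hsub hfin
  refine hcard.trans ((h N hN1 _ (by linarith) (by linarith) _ (by positivity)).trans ?_)
  have hTe : (C⁻¹ ^ (1 / M) * X ^ (1 / M)) ^ ((2 : ℝ) / 3) =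
      (C⁻¹ ^ (1 / M)) ^ ((2 : ℝ) / 3) * X ^ (2 / (3 * M)) := by
    rw [Real.mul_rpow (by positivity) (by positivity), ← Real.rpow_mul hX0.le]
    congr 2
    field_simp
  rw [hTe, Real.rpow_add hX0]
  calc D * (N : ℝ) ^ δ * ((C⁻¹ ^ (1 / M)) ^ ((2 : ℝ) / 3) * X ^ (2 / (3 * M)))
      ≤ D * X ^ δ * ((C⁻¹ ^ (1 / M)) ^ ((2 : ℝ) / 3) * X ^ (2 / (3 * M))) := by gcongr
    _ = D * (C⁻¹ ^ (1 / M)) ^ ((2 : ℝ) / 3) * (X ^ (2 / (3 * M)) * X ^ δ) := by ring

end Pool.Agent.Results.MP_14cf73_nt.ExceptionsByHeight
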