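import Pool.Agent.R479.HK.Prim

/-!
# Admissible triples with a small `H (abc)`

`H (n) = γ (n) / (log γ (n)) ^ ω (n)`. For every `K < 2 + 2 log (3/2) = 2.8109…` there are
infinitely many admissible triples with `c > H exp (K log H / log log H)`,
`H = max (H (abc), e ^ e)`. They are given by `a = ∏ (p ≤ z) p` and `b = ∏ (z < p ≤ y) p` with
`a ≤ b` as close as possible.
-/

set_option autoImplicit false

namespace Pool.Agent.Results.MP_14cf73_nt.LargerConstant

open Filter Topology

/-- `γ(n)`, the product of the primes dividing `n` -/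
def radical (n : ℕ) : ℕ := ∏ p ∈ n.primeFactors, p

/-- `ω(n)`, the number of primes dividing `n` -/
def omega (n : ℕ) : ℕ := n.primeFactors.card

/-- `H(n) = γ(n) / (log γ(n)) ^ ω(n)` -/
noncomputable def H (n : ℕ) : ℝ := (radical n : ℝ) / Real.log (radical n : ℝ) ^ omega n

/-- `max (H(n), e ^ e)` -/
noncomputable def H' (n : ℕ) : ℝ := max (H n) (Real.exp (Real.exp 1))

theorem radical_pos (n : ℕ) : 0 < radical n :=
  Finset.prod_pos fun _ hr => (Nat.prime_of_mem_primeFactors hr).pos

theorem primorial_succ_le (n : ℕ) : primorial (n + 1) ≤ primorial n * (n + 1) := by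
  unfold primorial
  rw [Finset.range_add_one (n := n + 1), Finset.filter_insert]
  split_ifs with h
  · rw [Finset.prod_insert (by simp)]
    exact le_of_eq (mul_comm _ _)
  · exact Nat.le_mul_of_pos_right _ (by omega)

/-- the splitting of the product of the primes `≤ y` -/
theorem split (y : ℕ) (hy : 2 ≤ y) : ∃ a b : ℕ, 0 < a ∧ 0 < b ∧ a * b = primorial y ∧
    Nat.Coprime a b ∧ a ^ 2 ≤ primorial y ∧ primorial y < a ^ 2 * y ^ 2 := by
  classical
  have hP2 : 2 ≤ primorial y := by
    have := primorial_mono hy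
    simpa using this
  have hex : primorial 0 ^ 2 ≤ primorial y := by
    rw [primorial_zero]
    omega
  set z := Nat.findGreatest (fun z => primorial z ^ 2 ≤ primorial y) y with hz
  have h1 : primorial z ^ 2 ≤ primorial y := by
    have := Nat.findGreatest_spec (P := fun z => primorial z ^ 2 ≤ primorial y) (Nat.zero_le y) hex
    exact this
  have hzy : z ≤ y := Nat.findGreatest_le y
  have hzy' : z < y := by
    rcases Nat.lt_or_ge z y with h | h
    · exact h
    · have h2 : z = y := le_antisymm hzy h
      rw [h2] at h1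
      nlinarith
  have h3 : primorial y < primorial (z + 1) ^ 2 := by
    have := Nat.findGreatest_is_greatest (P := fun z => primorial z ^ 2 ≤ primorial y)
      (n := y) (k := z + 1) (by rw [← hz]; omega) (by omega)
    simpa using this
  obtain ⟨b, hb⟩ := primorial_dvd_primorial hzy
  have hb0 : 0 < b := by
    rcases Nat.eq_zero_or_pos b with h | h
    · rw [h, mul_zero] at hb
      omega
    · exact h
  refine ⟨primorial z, b, primorial_pos z, hb0, hb.symm, ?_, h1, ?_⟩
  · have h4 := squarefree_primorial y
    rw [hb] at h4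
    exact Nat.coprime_of_squarefree_mul h4
  · calc primorial y < primorial (z + 1) ^ 2 := h3
      _ ≤ (primorial z * (z + 1)) ^ 2 := Nat.pow_le_pow_left (primorial_succ_le z) 2
      _ ≤ (primorial z * y) ^ 2 := Nat.pow_le_pow_left (Nat.mul_le_mul_left _ (by omega)) 2
      _ = primorial z ^ 2 * y ^ 2 := by ring

/-- `- g + k log g` decreases for `g ≥ k` -/
theorem decr {k g G : ℝ} (hk : 0 ≤ k) (hg : 0 < g) (hkg : k ≤ g) (hgG : g ≤ G) :
    -G + k * Real.log G ≤ -g + k * Real.log g := by
  have hG : 0 < G := by linarith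
  have h1 : Real.log G - Real.log g ≤ G / g - 1 := by
    rw [← Real.log_div hG.ne' hg.ne']
    exact Real.log_le_sub_one_of_pos (by positivity)
  have h2 : k * (G / g - 1) ≤ G - g := by
    have h3 : 0 ≤ G / g - 1 := by
      rw [sub_nonneg, one_le_div hg]
      exact hgG
    calc k * (G / g - 1) ≤ g * (G / g - 1) := by gcongr
      _ = G - g := by field_simp
  have h4 := mul_le_mul_of_nonneg_left h1 hk
  linarith

/-- the data of a triple given by a splitting -/
theorem estimate {a b y : ℕ} (hy : 2 ≤ y) (ha : 0 < a) (hb : 0 < b) (hab : a * b = primorial y)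
    (h1 : a ^ 2 ≤ primorial y) (h2 : primorial y < a ^ 2 * y ^ 2)
    (hk : (Nat.primeCounting y : ℝ) ≤ Chebyshev.theta y) (hθ : 1 ≤ Chebyshev.theta y) :
    Chebyshev.theta y / 2 ≤ Real.log ((a + b : ℕ) : ℝ) ∧
    Real.log ((a + b : ℕ) : ℝ) ≤ Chebyshev.theta y / 2 + 2 * Real.log y ∧
    0 < H (a * b * (a + b)) ∧
    (Nat.primeCounting y : ℝ) * Real.log (3 / 2 * Chebyshev.theta y) - Chebyshev.theta y ≤
      Real.log ((a + b : ℕ) : ℝ) - Real.log (H (a * b * (a + b))) := by
  have hyR : (2 : ℝ) ≤ y := by exact_mod_cast hy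
  have hy0 : (0 : ℝ) < y := by linarith
  have haR : (0 : ℝ) < a := by exact_mod_cast ha
  have hbR : (0 : ℝ) < b := by exact_mod_cast hb
  have hθe : Chebyshev.theta y = Real.log a + Real.log b := by
    rw [Chebyshev.theta_eq_log_primorial, Nat.floor_natCast, ← hab]
    push_cast
    exact Real.log_mul haR.ne' hbR.ne'
  have hab' : a ≤ b := by
    rw [← hab] at h1
    have h3 : a * a ≤ a * b := by
      calc a * a = a ^ 2 := by ring
        _ ≤ a * b := h1
    exact Nat.le_of_mul_le_mul_left h3 ha
  have hby : b < a * y ^ 2 := by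
    rw [← hab] at h2
    have h3 : a * b < a * (a * y ^ 2) := by
      calc a * b < a ^ 2 * y ^ 2 := h2
        _ = a * (a * y ^ 2) := by ring
    exact Nat.lt_of_mul_lt_mul_left h3
  have hloga : Real.log a ≤ Real.log b := Real.log_le_log haR (by exact_mod_cast hab')
  have hlogb : Real.log b ≤ Real.log a + 2 * Real.log y := by
    have h3 : (b : ℝ) ≤ a * (y : ℝ) ^ 2 := by exact_mod_cast hby.le
    have h4 := Real.log_le_log hbR h3
    rw [Real.log_mul haR.ne' (by positivity), Real.log_pow] at h4
    push_cast at h4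
    exact h4
  have hlogy : Real.log 2 ≤ Real.log y := Real.log_le_log (by norm_num) hyR
  have hc0 : (0 : ℝ) < ((a + b : ℕ) : ℝ) := by
    push_cast
    positivity
  have hclow : Real.log b ≤ Real.log ((a + b : ℕ) : ℝ) := by
    apply Real.log_le_log hbR
    push_cast
    linarith
  have hcup : Real.log ((a + b : ℕ) : ℝ) ≤ Real.log 2 + Real.log b := by
    rw [← Real.log_mul (by norm_num) hbR.ne']
    apply Real.log_le_log hc0
    push_cast
    have : (a : ℝ) ≤ b := by exact_mod_cast hab'
    linarith
  have hL1 : Chebyshev.theta y / 2 ≤ Real.log ((a + b : ℕ) : ℝ) := by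
    rw [hθe]
    linarith
  have hL2 : Real.log ((a + b : ℕ) : ℝ) ≤ Chebyshev.theta y / 2 + 2 * Real.log y := by
    rw [hθe]
    linarith
  -- the radical
  set n : ℕ := a * b * (a + b) with hn
  have hn0 : n ≠ 0 := by
    rw [hn]
    positivity
  have hsub : (primorial y).primeFactors ⊆ n.primeFactors := by
    apply Nat.primeFactors_mono _ hn0
    rw [hn, ← hab]
    exact Dvd.intro _ rfl
  have hω : (Nat.primeCounting y : ℝ) ≤ (omega n : ℝ) := by
    have h3 := Finset.card_le_card hsub
    rw [primeFactors_primorial, Nat.primesLE_card_eq_primeCounting] at h3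
    exact_mod_cast h3
  have hrlow : primorial y ≤ radical n := by
    have h3 : ∏ p ∈ (primorial y).primeFactors, p ∣ radical n :=
      Finset.prod_dvd_prod_of_subset _ _ _ hsub
    rw [primeFactors_primorial, ← primorial_eq_prod_primesLE] at h3
    exact Nat.le_of_dvd (radical_pos n) h3
  have hrup : radical n ≤ n := Nat.le_of_dvd (Nat.pos_of_ne_zero hn0) (Nat.prod_primeFactors_dvd n)
  have hr0 : (0 : ℝ) < (radical n : ℝ) := by exact_mod_cast radical_pos n
  set g : ℝ := Real.log (radical n : ℝ) with hg
  have hglow : Chebyshev.theta y ≤ g := by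
    rw [Chebyshev.theta_eq_log_primorial, Nat.floor_natCast]
    exact Real.log_le_log (by exact_mod_cast primorial_pos y) (by exact_mod_cast hrlow)
  have hgup : g ≤ Chebyshev.theta y + Real.log ((a + b : ℕ) : ℝ) := by
    have h3 : (radical n : ℝ) ≤ (a : ℝ) * b * ((a + b : ℕ) : ℝ) := by exact_mod_cast hrup
    have h4 := Real.log_le_log hr0 h3
    rw [Real.log_mul (by positivity) hc0.ne', Real.log_mul haR.ne' hbR.ne'] at h4
    rw [hθe]
    exact h4
  have hg1 : 1 ≤ g := hθ.trans hglow
  have hg0 : 0 < g := by linarith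
  have hlogg : 0 ≤ Real.log g := Real.log_nonneg hg1
  have hHdef : H n = (radical n : ℝ) / g ^ omega n := rfl
  have hH0 : 0 < H n := by
    rw [hHdef]
    positivity
  refine ⟨hL1, hL2, hH0, ?_⟩
  have hlogH : Real.log (H n) = g - (omega n : ℝ) * Real.log g := by
    rw [hHdef, Real.log_div hr0.ne' (by positivity), Real.log_pow]
  rw [hlogH]
  have h5 : (Nat.primeCounting y : ℝ) * Real.log g ≤ (omega n : ℝ) * Real.log g := by gcongr
  have h6 := decr (k := (Nat.primeCounting y : ℝ)) (g := g)
    (G := Chebyshev.theta y + Real.log ((a + b : ℕ) : ℝ)) (Nat.cast_nonneg _) hg0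
    (hk.trans hglow) hgup
  have h7 : (Nat.primeCounting y : ℝ) * Real.log (3 / 2 * Chebyshev.theta y) ≤
      (Nat.primeCounting y : ℝ) * Real.log (Chebyshev.theta y + Real.log ((a + b : ℕ) : ℝ)) := by
    apply mul_le_mul_of_nonneg_left _ (Nat.cast_nonneg _)
    apply Real.log_le_log (by linarith)
    linarith
  linarith

/-- **A larger constant.** For every `K < 2 + 2 log (3/2) = 2.8109…` and every `X` there is an
admissible triple with `c > X` and `c > H exp (K log H / log log H)` where
`H = max (H(abc), e ^ e)`. -/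
theorem result (K : ℝ) (hK : K < 2 + 2 * Real.log (3 / 2)) (X : ℝ) :
    ∃ a b c : ℕ, 0 < a ∧ 0 < b ∧ a + b = c ∧ Nat.Coprime a b ∧ X < c ∧
      H' (a * b * c) * Real.exp (K * Real.log (H' (a * b * c)) /
        Real.log (Real.log (H' (a * b * c)))) < c := by
  set K' : ℝ := max K 0 with hK'
  have hK'0 : 0 ≤ K' := le_max_right _ _
  have hKK' : K ≤ K' := le_max_left _ _
  have hl32 : 0 < Real.log (3 / 2 : ℝ) := Real.log_pos (by norm_num)
  have hK'1 : K' < 2 + 2 * Real.log (3 / 2) := max_lt hK (by linarith)
  have hth := Pool.Agent.Cov.PNT.theta_div_tendsto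
  have hpi := Pool.Agent.Cov.PNT.pi_tendsto
  have hthinf : Tendsto (fun x : ℝ => Chebyshev.theta x) atTop atTop := by
    have h1 : Tendsto (fun x : ℝ => Chebyshev.theta x / x * x) atTop atTop :=
      hth.pos_mul_atTop one_pos tendsto_id
    refine h1.congr' ?_
    filter_upwards [eventually_gt_atTop 0] with x hx
    field_simp
  -- `π ≤ θ` eventually
  have hpt : ∀ᶠ x : ℝ in atTop, (Nat.primeCounting ⌊x⌋₊ : ℝ) ≤ Chebyshev.theta x := by
    filter_upwards [hpi.eventually (gt_mem_nhds (show (1 : ℝ) < 2 by norm_num)),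
      hth.eventually (lt_mem_nhds (show (1 / 2 : ℝ) < 1 by norm_num)),
      Real.tendsto_log_atTop.eventually_ge_atTop 4, eventually_gt_atTop 1] with x h1 h2 h3 hx
    have hx0 : 0 < x := by linarith
    rw [div_lt_iff₀ hx0] at h1
    rw [lt_div_iff₀ hx0] at h2
    have h4 : (Nat.primeCounting ⌊x⌋₊ : ℝ) * 4 ≤ (Nat.primeCounting ⌊x⌋₊ : ℝ) * Real.log x := by
      gcongr
    linarith
  set B : ℝ := Real.exp 1 + K' * Real.exp 1 + |Real.log (max X 1)| + Real.exp 1 with hB
  have hall := (Pool.Agent.R479.HK.gain hK'1).and (hpt.and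
    (hthinf.eventually_gt_atTop (2 * B)))
  obtain ⟨y, hy2, ⟨hgain, hpty, hthy⟩⟩ : ∃ y : ℕ, 2 ≤ y ∧
      (K' * ((Chebyshev.theta y / 2 + 2 * Real.log y) /
        Real.log (Chebyshev.theta y / 2 + 2 * Real.log y)) <
        (Nat.primeCounting ⌊(y : ℝ)⌋₊ : ℝ) * Real.log (3 / 2 * Chebyshev.theta y) -
          Chebyshev.theta y ∧
      (Nat.primeCounting ⌊(y : ℝ)⌋₊ : ℝ) ≤ Chebyshev.theta y ∧ 2 * B < Chebyshev.theta y) := by
    have h1 := (tendsto_natCast_atTop_atTop (R := ℝ)).eventually hall
    obtain ⟨y, h2, h3⟩ := ((eventually_ge_atTop 2).and h1).exists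
    exact ⟨y, h2, h3⟩
  rw [Nat.floor_natCast] at hgain hpty
  have he0 : 0 < Real.exp 1 := Real.exp_pos 1
  have he1 : (1 : ℝ) ≤ Real.exp 1 := Real.one_le_exp (by norm_num)
  have hB1 : Real.exp 1 ≤ B := by
    rw [hB]
    have : 0 ≤ K' * Real.exp 1 := by positivity
    have : 0 ≤ |Real.log (max X 1)| := abs_nonneg _
    linarith
  obtain ⟨a, b, ha, hb, hab, hcop, h1, h2⟩ := split y hy2
  obtain ⟨hL1, hL2, hH0, hest⟩ := estimate hy2 ha hb hab h1 h2 hpty (by linarith)
  have hc0 : (0 : ℝ) < ((a + b : ℕ) : ℝ) := by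
    have : 0 < a + b := by omega
    exact_mod_cast this
  set L : ℝ := Real.log ((a + b : ℕ) : ℝ) with hL
  have hLB : B < L := by linarith
  have hcL : ((a + b : ℕ) : ℝ) = Real.exp L := by rw [hL, Real.exp_log hc0]
  refine ⟨a, b, a + b, ha, hb, rfl, hcop, ?_, ?_⟩
  · have hX1 : 0 < max X 1 := lt_of_lt_of_le one_pos (le_max_right _ _)
    have h3 : Real.log (max X 1) < L := by
      refine lt_of_le_of_lt (le_abs_self _) ?_
      have : |Real.log (max X 1)| ≤ B := by
        rw [hB]
        have : 0 ≤ K' * Real.exp 1 := by positivity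
        linarith
      linarith
    calc X ≤ max X 1 := le_max_left _ _
      _ = Real.exp (Real.log (max X 1)) := (Real.exp_log hX1).symm
      _ < Real.exp L := Real.exp_lt_exp.mpr h3
      _ = ((a + b : ℕ) : ℝ) := hcL.symm
  · have hE : Real.log (Real.exp (Real.exp 1)) = Real.exp 1 := Real.log_exp _
    set h : ℝ := H' (a * b * (a + b)) with hh
    have hhE : Real.exp (Real.exp 1) ≤ h := le_max_right _ _
    have hh0 : 0 < h := lt_of_lt_of_le (Real.exp_pos _) hhE
    have hlh : Real.exp 1 ≤ Real.log h := by
      rw [← hE]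
      exact Real.log_le_log (Real.exp_pos _) hhE
    have hlh0 : 0 < Real.log h := by linarith
    have hllh : 1 ≤ Real.log (Real.log h) := by
      have := Real.log_le_log he0 hlh
      rwa [Real.log_exp] at this
    -- it is enough to bound with `K'`
    have hmain : Real.log h + K' * Real.log h / Real.log (Real.log h) < L := by
      rcases le_total (H (a * b * (a + b))) (Real.exp (Real.exp 1)) with hcase | hcase
      · have h3 : h = Real.exp (Real.exp 1) := max_eq_right hcase
        rw [h3, hE, Real.log_exp, div_one]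
        refine lt_of_le_of_lt ?_ hLB
        rw [hB]
        have : 0 ≤ |Real.log (max X 1)| := abs_nonneg _
        linarith
      · have h3 : h = H (a * b * (a + b)) := max_eq_left hcase
        rw [← h3] at hest
        have hM0 : 0 < (Chebyshev.theta y / 2 + 2 * Real.log y) := by
          linarith
        have hfrac0 : 0 ≤ (Chebyshev.theta y / 2 + 2 * Real.log y) /
            Real.log (Chebyshev.theta y / 2 + 2 * Real.log y) := by
          apply div_nonneg hM0.le
          apply Real.log_nonneg
          linarith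
        have hlhL : Real.log h ≤ Chebyshev.theta y / 2 + 2 * Real.log y := by
          have h4 : 0 ≤ K' * ((Chebyshev.theta y / 2 + 2 * Real.log y) /
            Real.log (Chebyshev.theta y / 2 + 2 * Real.log y)) := mul_nonneg hK'0 hfrac0
          linarith
        -- monotonicity of `x / log x`
        have h5 : Real.log h / Real.log (Real.log h) ≤
            (Chebyshev.theta y / 2 + 2 * Real.log y) /
            Real.log (Chebyshev.theta y / 2 + 2 * Real.log y) := by
          have h6 := Real.log_div_self_antitoneOn (a := Real.log h)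
            (b := Chebyshev.theta y / 2 + 2 * Real.log y) hlh (hlh.trans hlhL) hlhL
          simp only at h6
          have h7 : 0 < Real.log (Chebyshev.theta y / 2 + 2 * Real.log y) := by
            apply Real.log_pos
            have : (1 : ℝ) < Real.exp 1 := Real.one_lt_exp_iff.mpr one_pos
            linarith
          rw [div_le_div_iff₀ (by linarith) h7]
          rw [div_le_div_iff₀ hM0 hlh0] at h6
          linarith
        have h8 := mul_le_mul_of_nonneg_left h5 hK'0
        have h9 : K' * Real.log h / Real.log (Real.log h) =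
            K' * (Real.log h / Real.log (Real.log h)) := by ring
        rw [h9]
        linarith
    have h10 : K * Real.log h / Real.log (Real.log h) ≤
        K' * Real.log h / Real.log (Real.log h) := by
      gcongr
    calc h * Real.exp (K * Real.log h / Real.log (Real.log h))
        = Real.exp (Real.log h + K * Real.log h / Real.log (Real.log h)) := by
          rw [Real.exp_add, Real.exp_log hh0]
      _ < Real.exp L := by
          apply Real.exp_lt_exp.mpr
          linarith
      _ = ((a + b : ℕ) : ℝ) := hcL.symm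

end Pool.Agent.Results.MP_14cf73_nt.LargerConstant
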