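import Pool.Agent.Results.MP_14cf73_nt.ExceptionsByHeight
import Pool.Agent.Y854.GM.Win

/-!
# The inequality `c < C H (abc) ^ M` in short windows around a thin sequence

Let `v ≥ 1` be any sequence with exponent of convergence at most `τ` (for `v_n = n ^ κ` this is
`1 / κ`, for `v_n = b ^ n` it is `0`) and `0 ≤ θ < 1`. For all `α > 0` outside a set of Hausdorff
dimension at most `(2 A / (3 M) + τ) / (1 - θ)` and all but finitely many `n`, EVERY admissible
triple with a member `m`, `|m - α v_n| ≤ v_n ^ θ`, and `c ≤ m ^ A` satisfies `c < C H (abc) ^ M`.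
-/

set_option autoImplicit false

namespace Pool.Agent.Results.MP_14cf73_nt.SequenceMembers

open Finset

/-- `γ(n)`, the product of the primes dividing `n` -/
def radical (n : ℕ) : ℕ := ∏ p ∈ n.primeFactors, p

/-- `ω(n)`, the number of primes dividing `n` -/
def omega (n : ℕ) : ℕ := n.primeFactors.card

/-- `H(n) = γ(n) / (log γ(n)) ^ ω(n)` -/
noncomputable def H (n : ℕ) : ℝ := (radical n : ℝ) / Real.log (radical n : ℝ) ^ omega n

/-- every admissible triple `(a, b, c)`, `c = a + b ≤ m ^ A`, one of whose members is `m` satisfies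
`c < C H(abc) ^ M` -/
def Good (A C M : ℝ) (m : ℕ) : Prop :=
  ∀ a b : ℕ, 0 < a → 0 < b → Nat.Coprime a b → (a = m ∨ b = m ∨ a + b = m) →
    ((a + b : ℕ) : ℝ) ≤ (m : ℝ) ^ A → ((a + b : ℕ) : ℝ) < C * H (a * b * (a + b)) ^ M

/-- the exponent of convergence of the sequence `v` is at most `τ` -/
def ExpLe (v : ℕ → ℝ) (τ : ℝ) : Prop := ∀ t : ℝ, τ < t → Summable (fun n : ℕ => (v n) ^ (-t))

/-- the integers which are not `Good` -/
def Bad (A C M : ℝ) : Set ℕ := {m | ¬ Good A C M m}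

open Classical in
theorem count {A C M : ℝ} (hA : 0 < A) (hC : 0 < C) (hM : 0 < M) (ε : ℝ) (hε : 0 < ε) :
    ∃ K : ℝ, ∀ X : ℕ, 1 ≤ X →
      (((Ioc 0 X).filter (fun m => m ∈ Bad A C M)).card : ℝ) ≤
        K * (X : ℝ) ^ (2 * A / (3 * M) + ε) := by
  obtain ⟨K, hK, h⟩ := Pool.Agent.Results.MP_14cf73_nt.ExceptionsByHeight.result C M (ε / A) hC hM
    (by positivity)
  refine ⟨3 * K, fun X hX => ?_⟩
  have hX1 : (1 : ℝ) ≤ X := by exact_mod_cast hX
  have hX0 : (0 : ℝ) < X := by linarith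
  have hY1 : (1 : ℝ) ≤ (X : ℝ) ^ A := Real.one_le_rpow hX1 hA.le
  obtain ⟨hfin, h1⟩ := h ((X : ℝ) ^ A) hY1
  set S := Pool.Agent.Results.MP_14cf73_nt.ExceptionsByHeight.exceptions C M ((X : ℝ) ^ A) with hS
  have hsub : (Ioc 0 X).filter (fun m => m ∈ Bad A C M) ⊆
      (hfin.toFinset.image (fun t => t.1)) ∪ ((hfin.toFinset.image (fun t => t.2)) ∪
        (hfin.toFinset.image (fun t => t.1 + t.2))) := by
    intro m hm
    rw [mem_filter, mem_Ioc] at hm
    obtain ⟨⟨hm0, hmX⟩, hbad⟩ := hm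
    have hbad : ¬ Good A C M m := hbad
    unfold Good at hbad
    push Not at hbad
    obtain ⟨a, b, ha, hb, hab, hmem, hht, hex⟩ := hbad
    have ht : (a, b) ∈ S := by
      refine ⟨ha, hb, hab, ?_, hex⟩
      exact hht.trans (Real.rpow_le_rpow (Nat.cast_nonneg _) (by exact_mod_cast hmX) hA.le)
    simp only [mem_union, mem_image, Set.Finite.mem_toFinset]
    rcases hmem with h | h | h
    · exact Or.inl ⟨_, ht, h⟩
    · exact Or.inr (Or.inl ⟨_, ht, h⟩)
    · exact Or.inr (Or.inr ⟨_, ht, h⟩)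
  have h2 : ((Ioc 0 X).filter (fun m => m ∈ Bad A C M)).card ≤ 3 * S.ncard := by
    have e : S.ncard = hfin.toFinset.card := Set.ncard_eq_toFinset_card _ hfin
    have g1 := (card_le_card hsub).trans (card_union_le _ _)
    have g2 := card_union_le (hfin.toFinset.image (fun t => t.2))
      (hfin.toFinset.image (fun t => t.1 + t.2))
    have g3 := card_image_le (s := hfin.toFinset) (f := fun t => t.1)
    have g4 := card_image_le (s := hfin.toFinset) (f := fun t => t.2)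
    have g5 := card_image_le (s := hfin.toFinset) (f := fun t => t.1 + t.2)
    omega
  calc (((Ioc 0 X).filter (fun m => m ∈ Bad A C M)).card : ℝ) ≤ ((3 * S.ncard : ℕ) : ℝ) := by
        exact_mod_cast h2
    _ = 3 * (S.ncard : ℝ) := by push_cast; ring
    _ ≤ 3 * (K * ((X : ℝ) ^ A) ^ (2 / (3 * M) + ε / A)) := by linarith
    _ = 3 * K * (X : ℝ) ^ (2 * A / (3 * M) + ε) := by
        rw [← Real.rpow_mul hX0.le, show A * (2 / (3 * M) + ε / A) = 2 * A / (3 * M) + ε by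
          field_simp]
        ring

/-- **Theorem.** (1) For all sequences `v ≥ 1` of exponent of convergence at most `τ ≥ 0`, all
`A ≥ 1`, `0 ≤ θ < 1`, `C > 0` and `M > 0` there is a set `E` of Hausdorff dimension at most
`(2 A / (3 M) + τ) / (1 - θ)` such that for each `α > 0` outside `E` and all but finitely many `n`
all the integers `m` with `|m - α v_n| ≤ v_n ^ θ` are `Good A C M`. (2) The sequences
`v_n = (n + 1) ^ κ` and `v_n = b ^ n` have exponent of convergence at most `1 / κ` and `0`. -/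
theorem result :
    (∀ (v : ℕ → ℝ) (τ A θ C M : ℝ), (∀ n, 1 ≤ v n) → 0 ≤ τ → ExpLe v τ → 1 ≤ A → 0 ≤ θ → θ < 1 →
      0 < C → 0 < M →
      ∃ E : Set ℝ, dimH E ≤ ENNReal.ofReal ((2 * A / (3 * M) + τ) / (1 - θ)) ∧
        ∀ α : ℝ, 0 < α → α ∉ E →
        ∃ n₀ : ℕ, ∀ n : ℕ, n₀ ≤ n → ∀ m : ℕ, |(m : ℝ) - α * v n| ≤ (v n) ^ θ → Good A C M m) ∧
    (∀ κ : ℝ, 0 < κ → ExpLe (fun n : ℕ => ((n : ℝ) + 1) ^ κ) (1 / κ)) ∧
    (∀ b : ℝ, 1 < b → ExpLe (fun n : ℕ => b ^ n) 0) := by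
  refine ⟨fun v τ A θ C M hv hτ hE hA hθ hθ1 hC hM => ?_,
    fun κ hκ => Pool.Agent.Y854.GM.expLe_pow κ hκ,
    fun b hb => Pool.Agent.Y854.GM.expLe_geom b hb⟩
  obtain ⟨E, h1, h2⟩ := Pool.Agent.Y854.GM.win_nat (Bad A C M) hv hτ hE
    (s := 2 * A / (3 * M)) (by positivity) hθ1
    (fun ε hε => count (A := A) (lt_of_lt_of_le one_pos hA) hC hM ε hε)
  refine ⟨E, h1, fun α hα hαE => ?_⟩
  obtain ⟨n₀, hn⟩ := h2 α hα hαE
  refine ⟨n₀, fun n hn1 m hm => ?_⟩
  have h3 := (hn n hn1 m hm).2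
  by_contra hcon
  exact h3 hcon

end Pool.Agent.Results.MP_14cf73_nt.SequenceMembers
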